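import Pool.Agent.TH824.BK.Mats

open Polynomial IsDedekindDomain Matrix MeasureTheory
open scoped WithZero RestrictedProduct

noncomputable section
namespace TH824.BK

theorem UA_isOpen (U : ∀ v : Pl, Subgroup (GL (Fin 2) (Kv v))) (U' : Subgroup (GL (Fin 2) Kinf))
    (hGO : ∀ v : Pl, IsOpen (GO (Kv v) : Set (GL (Fin 2) (Kv v))))
    (hle : ∀ v, U v ≤ GO (Kv v)) (heq : ∀ᶠ v in Filter.cofinite, U v = GO (Kv v))
    (hU : ∀ v, IsOpen (U v : Set (GL (Fin 2) (Kv v)))) (hU' : IsOpen (U' : Set (GL (Fin 2) Kinf))) :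
    IsOpen (UA U U' : Set GA) := by
  have h1 : (UA U U' : Set GA) = {f : Gfin | ∀ v, f v ∈ U v} ×ˢ (U' : Set (GL (Fin 2) Kinf)) := by
    ext g
    rfl
  rw [h1]
  refine IsOpen.prod ?_ hU'
  have h2 : {f : Gfin | ∀ v, f v ∈ U v} =
      {f : Gfin | ∀ v, f.1 v ∈ (GO (Kv v) : Set (GL (Fin 2) (Kv v)))} ∩
      ⋂ v ∈ {v : Pl | U v ≠ GO (Kv v)}, (fun f : Gfin => f v) ⁻¹' (U v : Set (GL (Fin 2) (Kv v))) := by
    ext f
    simp only [Set.mem_ofPred_eq, Set.mem_inter_iff, Set.mem_iInter, Set.mem_preimage]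
    constructor
    · intro h
      exact ⟨fun v => hle v (h v), fun v _ => h v⟩
    · rintro ⟨ha, hb⟩ v
      by_cases hv : U v = GO (Kv v)
      · rw [hv]; exact ha v
      · exact hb v hv
  rw [h2]
  refine IsOpen.inter (RestrictedProduct.isOpen_forall_mem hGO) ?_
  refine Set.Finite.isOpen_biInter ?_ ?_
  · exact heq
  · intro v _
    exact (hU v).preimage (RestrictedProduct.continuous_eval v)


theorem J8_continuous_nmat {F : Type} [Field F] [Valued F ℤᵐ⁰] :
    Continuous (nmat : F → GL (Fin 2) F) := by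
  rw [Units.continuous_iff]
  constructor
  · refine continuous_matrix fun i j => ?_
    fin_cases i <;> fin_cases j <;> simp [nmat] <;> fun_prop
  · refine continuous_matrix fun i j => ?_
    have : ∀ x : F, (((nmat x : GL (Fin 2) F)⁻¹ : GL (Fin 2) F) : Matrix (Fin 2) (Fin 2) F) =
        !![1, -x; 0, 1] := fun x => rfl
    simp only [this]
    fin_cases i <;> fin_cases j <;> simp <;> fun_prop

lemma J8_nmat_mapsTo (v : Pl) : Set.MapsTo (fun x : Kv v => (nmat x : GL (Fin 2) (Kv v)))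
    (v.adicCompletionIntegers Kx : Set (Kv v)) (GO (Kv v) : Set (GL (Fin 2) (Kv v))) := by
  intro x hx
  have hv' : Valued.v x ≤ 1 := hx
  refine ⟨fun i j => ?_, by simp [nmat]⟩
  fin_cases i <;> fin_cases j <;> simp [nmat, hv']

theorem continuous_nA : Continuous nA := by
  refine Continuous.prodMk ?_ (J8_continuous_nmat.comp continuous_snd)
  have h := RestrictedProduct.mapAlong_continuous (R₁ := fun v : Pl => Kv v)
    (R₂ := fun v : Pl => GL (Fin 2) (Kv v))
    (A₁ := fun v : Pl => (v.adicCompletionIntegers Kx : Set (Kv v)))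
    (A₂ := fun v : Pl => (GO (Kv v) : Set (GL (Fin 2) (Kv v))))
    (𝓕₁ := Filter.cofinite) (𝓕₂ := Filter.cofinite)
    id Filter.tendsto_id (fun v x => nmat x) (Filter.Eventually.of_forall J8_nmat_mapsTo)
    (fun v => J8_continuous_nmat)
  exact h.comp continuous_fst

theorem J8_isCompact_ball {F : Type} [Field F] [Valued F ℤᵐ⁰] [CompleteSpace F]
    (h : ∀ M : ℕ, ∃ s : Finset F, ∀ x : F, Valued.v x ≤ 1 →
      ∃ y ∈ s, Valued.v y ≤ 1 ∧ Valued.v (x - y) ≤ WithZero.exp (-(M : ℤ))) :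
    IsCompact {x : F | Valued.v x ≤ 1} := by
  rw [isCompact_iff_totallyBounded_isComplete]
  constructor
  · rw [(Valued.hasBasis_uniformity F ℤᵐ⁰).totallyBounded_iff]
    intro γ _
    have hne : MonoidWithZeroHom.ValueGroup₀.embedding γ.1 ≠ (0 : ℤᵐ⁰) := by
      intro h0
      simp at h0
    obtain ⟨M, hM⟩ : ∃ M : ℕ, WithZero.exp (-(M : ℤ)) <
        MonoidWithZeroHom.ValueGroup₀.embedding γ.1 := by
      obtain ⟨k, hk⟩ := WithZero.ne_zero_iff_exists.mp hne
      refine ⟨((-(Multiplicative.toAdd k)) + 1).toNat, ?_⟩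
      rw [← hk]
      have : (k : ℤᵐ⁰) = WithZero.exp (Multiplicative.toAdd k) := rfl
      rw [this, WithZero.exp_lt_exp]
      have := Int.self_le_toNat ((-(Multiplicative.toAdd k)) + 1)
      omega
    obtain ⟨s, hs⟩ := h M
    refine ⟨s, s.finite_toSet, ?_⟩
    intro x hx
    obtain ⟨y, hy, _, hxy⟩ := hs x hx
    simp only [Set.mem_iUnion]
    refine ⟨y, hy, ?_⟩
    show Valued.v.restrict (y - x) < γ.1
    rw [Valuation.restrict_lt_iff_lt_embedding, Valuation.map_sub_swap]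
    exact hxy.trans_lt hM
  · exact (Valued.isClosed_integer F).isComplete

theorem J8_completeSpace_Kinf : CompleteSpace Kinf := by
  let : UniformSpace (RatFunc (ZMod 2)) := (RatFunc.inftyValued (ZMod 2)).toUniformSpace
  exact inferInstanceAs (CompleteSpace (UniformSpace.Completion (RatFunc (ZMod 2))))

theorem J8_isCompact_fin
    (hv : ∀ (v : Pl) (M : ℕ), ∃ s : Finset (Kv v), ∀ x : Kv v, Valued.v x ≤ 1 →
      ∃ y ∈ s, Valued.v y ≤ 1 ∧ Valued.v (x - y) ≤ WithZero.exp (-(M : ℤ))) :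
    IsCompact {f : FiniteAdeleRing Rx Kx | ∀ v, Valued.v (f v) ≤ 1} := by
  have h1 : ∀ v : Pl, CompactSpace (v.adicCompletionIntegers Kx : Set (Kv v)) := by
    intro v
    rw [← isCompact_iff_compactSpace]
    exact J8_isCompact_ball (hv v)
  have h2 : {f : FiniteAdeleRing Rx Kx | ∀ v, Valued.v (f v) ≤ 1} =
      Set.range (RestrictedProduct.structureMap (fun v : Pl => Kv v)
        (fun v : Pl => (v.adicCompletionIntegers Kx : Set (Kv v))) Filter.cofinite) := by
    rw [RestrictedProduct.range_structureMap]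
    rfl
  rw [h2]
  exact isCompact_range (RestrictedProduct.isEmbedding_structureMap).continuous

theorem compact_quot
    (hsa : ∀ x : FiniteAdeleRing Rx Kx,
      ∃ ξ : Kx, ∀ v : Pl, Valued.v (x v - algebraMap Kx (Kv v) ξ) ≤ 1)
    (happ : ∀ x : Kinf, ∃ r : Rx, Valued.v (x - algebraMap Kx Kinf (algebraMap Rx Kx r)) < 1)
    (hv : ∀ (v : Pl) (M : ℕ), ∃ s : Finset (Kv v), ∀ x : Kv v, Valued.v x ≤ 1 →
      ∃ y ∈ s, Valued.v y ≤ 1 ∧ Valued.v (x - y) ≤ WithZero.exp (-(M : ℤ)))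
    (hinf : ∀ M : ℕ, ∃ s : Finset Kinf, ∀ x : Kinf, Valued.v x ≤ 1 →
      ∃ y ∈ s, Valued.v y ≤ 1 ∧ Valued.v (x - y) ≤ WithZero.exp (-(M : ℤ))) :
    CompactSpace (AK ⧸ KA) := by
  have := J8_completeSpace_Kinf
  have hC : IsCompact ({f : FiniteAdeleRing Rx Kx | ∀ v, Valued.v (f v) ≤ 1} ×ˢ
      {x : Kinf | Valued.v x ≤ 1} : Set AK) := (J8_isCompact_fin hv).prod (J8_isCompact_ball hinf)
  have hq : Continuous (QuotientAddGroup.mk : AK → AK ⧸ KA) := continuous_quot_mk
  have him := hC.image hq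
  constructor
  convert him
  symm
  rw [Set.eq_univ_iff_forall]
  intro z
  obtain ⟨x, rfl⟩ := QuotientAddGroup.mk_surjective z
  obtain ⟨ξ, hξ⟩ := hsa x.1
  obtain ⟨r, hr⟩ := happ (x.2 - algebraMap Kx Kinf ξ)
  set k : Kx := ξ + algebraMap Rx Kx r with hk
  refine ⟨x - algebraMap Kx AK k, ⟨?_, ?_⟩, ?_⟩
  · intro v
    have e1 : (x - algebraMap Kx AK k).1 v =
        (x.1 v - algebraMap Kx (Kv v) ξ) - algebraMap Kx (Kv v) (algebraMap Rx Kx r) := by
      have : (x - algebraMap Kx AK k).1 v = x.1 v - algebraMap Kx (Kv v) k := rfl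
      rw [this, hk, map_add]; ring
    show Valued.v ((x - algebraMap Kx AK k).1 v) ≤ 1
    rw [e1]
    refine (Valuation.map_sub _ _ _).trans (max_le (hξ v) ?_)
    have h3 : algebraMap Kx (Kv v) (algebraMap Rx Kx r) = algebraMap Rx (Kv v) r :=
      (IsScalarTower.algebraMap_apply Rx Kx (Kv v) r).symm
    rw [HeightOneSpectrum.algebraMap_adicCompletion]
    show Valued.v ((algebraMap Rx Kx r : Kx) : Kv v) ≤ 1
    rw [HeightOneSpectrum.valuedAdicCompletion_eq_valuation']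
    exact v.valuation_le_one r
  · have e1 : (x - algebraMap Kx AK k).2 =
        (x.2 - algebraMap Kx Kinf ξ) - algebraMap Kx Kinf (algebraMap Rx Kx r) := by
      have : (x - algebraMap Kx AK k).2 = x.2 - algebraMap Kx Kinf k := rfl
      rw [this, hk, map_add]; ring
    show Valued.v ((x - algebraMap Kx AK k).2) ≤ 1
    rw [e1]
    exact hr.le
  · rw [QuotientAddGroup.eq]
    exact ⟨k, by simp⟩

end TH824.BK
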