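import Mathlib

set_option autoImplicit false

namespace Pool.Agent.TH454.PW2

/-- Build a walk from a function on the naturals. -/
theorem exists_walk {V : Type*} (G : SimpleGraph V) (m : ℕ) :
    ∀ g : ℕ → V, (∀ i, i < m → G.Adj (g i) (g (i + 1))) →
      ∃ p : G.Walk (g 0) (g m), p.length = m ∧ ∀ i, i ≤ m → p.getVert i = g i := by
  induction m with
  | zero =>
    intro g _
    refine ⟨SimpleGraph.Walk.nil, rfl, ?_⟩
    intro i hi
    have : i = 0 := by omega
    subst this
    simp
  | succ m ih =>
    intro g hg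
    obtain ⟨p, hp1, hp2⟩ := ih (fun i => g (i + 1)) (fun i hi => hg (i + 1) (by omega))
    refine ⟨SimpleGraph.Walk.cons (hg 0 (by omega)) p, by simp [hp1], ?_⟩
    intro i hi
    cases i with
    | zero => simp
    | succ i =>
      rw [SimpleGraph.Walk.getVert_cons_succ]
      exact hp2 i (by omega)

/-- The combinatorial heart: if the sets `F j` (with `|F j| ≤ c`) block all the squares, we get a
bound on the harmonic number. -/
theorem counting (c X : ℕ) (F : ℕ → Finset ℕ) (q : ℕ → ℕ)
    (hF : ∀ j, j < 4 * X + 2 → (F j).card ≤ c)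
    (hq : ∀ i j, i < 4 * X + 2 → j < 4 * X + 2 → q i = q j → i = j)
    (hb : ∀ x i, x ≤ X → i < 2 * X + 1 →
      (∃ r, r ≤ x ∧ q (i + r) ∈ F (i + x + r)) ∨
      (∃ r, r < x ∧ q (i + x + 1 + r) ∈ F (i + r))) :
    (∑ x ∈ Finset.range (X + 1), (1 : ℚ) / (x + 1)) ≤ 2 * c := by
  classical
  set n := 4 * X + 2 with hn
  set N := 2 * X + 1 with hN
  -- the set of pairs
  set A : Finset (ℕ × ℕ) :=
    ((Finset.range n) ×ˢ (Finset.range n)).filter (fun a => q a.2 ∈ F a.1) with hA
  let σ : ℕ × ℕ → ℕ := fun a => if a.2 ≤ a.1 then a.1 - a.2 else a.2 - a.1 - 1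
  have hAcard : A.card ≤ n * c := by
    have h1 : A.card ≤ ∑ j ∈ Finset.range n, c := by
      rw [hA, Finset.card_filter, Finset.sum_product]
      apply Finset.sum_le_sum
      intro j hj
      rw [← Finset.card_filter]
      refine le_trans ?_ (hF j (by simpa using hj))
      apply Finset.card_le_card_of_injOn q
      · intro m hm
        simp only [Finset.coe_filter, Finset.mem_range, Set.mem_setOf_eq] at hm
        exact hm.2
      · intro m hm m' hm' h
        simp only [Finset.coe_filter, Finset.mem_range, Set.mem_setOf_eq] at hm hm'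
        exact hq m m' hm.1 hm'.1 h
    simpa using h1
  have hscale : ∀ x, x ∈ Finset.range (X + 1) →
      (N : ℚ) * (1 / (x + 1)) ≤ ((A.filter (fun a => σ a = x)).card : ℚ) := by
    intro x hx
    have hx' : x ≤ X := by
      have := Finset.mem_range.1 hx
      omega
    have hcard : N ≤ (A.filter (fun a => σ a = x)).card * (x + 1) := by
      have hsub : Finset.range N ⊆
          ((A.filter (fun a => σ a = x)) ×ˢ (Finset.range (x + 1))).image
            (fun b => min b.1.1 b.1.2 - b.2) := by
        intro i hi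
        have hi' : i < 2 * X + 1 := by simpa [hN] using hi
        rw [Finset.mem_image]
        rcases hb x i hx' hi' with ⟨r, hr, h⟩ | ⟨r, hr, h⟩
        · refine ⟨((i + x + r, i + r), r), ?_, ?_⟩
          · simp only [Finset.mem_product, Finset.mem_filter, Finset.mem_range, hA, σ]
            refine ⟨⟨⟨⟨?_, ?_⟩, h⟩, ?_⟩, ?_⟩
            · omega
            · omega
            · rw [if_pos (by omega)]; omega
            · omega
          · simp only
            omega
        · refine ⟨((i + r, i + x + 1 + r), r), ?_, ?_⟩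
          · simp only [Finset.mem_product, Finset.mem_filter, Finset.mem_range, hA, σ]
            refine ⟨⟨⟨⟨?_, ?_⟩, h⟩, ?_⟩, ?_⟩
            · omega
            · omega
            · rw [if_neg (by omega)]; omega
            · omega
          · simp only
            omega
      have h2 := Finset.card_le_card hsub
      rw [Finset.card_range] at h2
      refine h2.trans (Finset.card_image_le.trans ?_)
      rw [Finset.card_product, Finset.card_range]
    have hpos : (0 : ℚ) < (x : ℚ) + 1 := by positivity
    rw [mul_one_div, div_le_iff₀ hpos]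
    exact_mod_cast hcard
  have hsum : ∑ x ∈ Finset.range (X + 1), (A.filter (fun a => σ a = x)).card ≤ A.card := by
    rw [← Finset.card_biUnion]
    · apply Finset.card_le_card
      intro a ha
      simp only [Finset.mem_biUnion, Finset.mem_filter] at ha
      obtain ⟨_, _, h, _⟩ := ha
      exact h
    · intro x _ y _ hxy
      rw [Function.onFun, Finset.disjoint_left]
      intro a ha ha'
      simp only [Finset.mem_filter] at ha ha'
      exact hxy (ha.2.symm.trans ha'.2)
  have hfin : (N : ℚ) * ∑ x ∈ Finset.range (X + 1), (1 : ℚ) / (x + 1) ≤ (n : ℚ) * c := by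
    rw [Finset.mul_sum]
    refine (Finset.sum_le_sum hscale).trans ?_
    calc (∑ x ∈ Finset.range (X + 1), ((A.filter (fun a => σ a = x)).card : ℚ))
        = ((∑ x ∈ Finset.range (X + 1), (A.filter (fun a => σ a = x)).card : ℕ) : ℚ) := by
          push_cast; rfl
      _ ≤ (A.card : ℚ) := by exact_mod_cast hsum
      _ ≤ ((n * c : ℕ) : ℚ) := by exact_mod_cast hAcard
      _ = (n : ℚ) * c := by push_cast; ring
  have hNpos : (0 : ℚ) < (N : ℚ) := by
    rw [hN]; positivity
  have hnN : (n : ℚ) = 2 * N := by
    rw [hn, hN]; push_cast; ring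
  rw [hnN] at hfin
  have : (N : ℚ) * ∑ x ∈ Finset.range (X + 1), (1 : ℚ) / (x + 1) ≤ N * (2 * c) := by
    calc _ ≤ 2 * (N : ℚ) * c := hfin
      _ = N * (2 * c) := by ring
  exact le_of_mul_le_mul_left this hNpos

/-- Harmonic numbers are unbounded. -/
theorem exists_large_harmonic (c : ℕ) :
    ∃ X : ℕ, (2 * c : ℚ) < ∑ x ∈ Finset.range (X + 1), (1 : ℚ) / (x + 1) := by
  have h := Real.tendsto_sum_range_one_div_nat_succ_atTop
  have h2 := (h.eventually_gt_atTop ((2 * c : ℝ))).exists_forall_of_atTop
  obtain ⟨a, ha⟩ := h2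
  refine ⟨a, ?_⟩
  have := ha (a + 1) (by omega)
  have h3 : ((2 * c : ℚ) : ℝ) < ((∑ x ∈ Finset.range (a + 1), (1 : ℚ) / (x + 1) : ℚ) : ℝ) := by
    push_cast
    push_cast at this
    simpa using this
  exact_mod_cast h3

end Pool.Agent.TH454.PW2
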