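import Mathlib
import Pool.Agent.TH454.PW2

set_option autoImplicit false

namespace Pool.Agent.TH454.PW2

/-- Index type of the middle vertices: the `k`-subsets of `range M`. -/
abbrev Idx (k M : ℕ) : Type := {S : Finset ℕ // S ∈ (Finset.range M).powersetCard k}

/-- Vertex type of the strip. -/
abbrev VT (n k M : ℕ) : Type := Fin n ⊕ (Fin n × Idx k M)

/-- The adjacency of the strip: `w_{j,S}` is adjacent to `p_j` and `p_{j+1}`. -/
def rel (n k M : ℕ) : VT n k M → VT n k M → Prop
  | Sum.inl i, Sum.inr (j, _) => (i : ℕ) = j ∨ (i : ℕ) = j + 1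
  | _, _ => False

/-- The strip graph. -/
def strip (n k M : ℕ) : SimpleGraph (VT n k M) := SimpleGraph.fromRel (rel n k M)

theorem strip_adj1 {n k M : ℕ} (i j : Fin n) (S : Idx k M) (h : (i : ℕ) = j ∨ (i : ℕ) = j + 1) :
    (strip n k M).Adj (Sum.inl i) (Sum.inr (j, S)) := by
  rw [strip, SimpleGraph.fromRel_adj]
  exact ⟨by simp, Or.inl h⟩

/-- Left end of the interval of bags of a vertex. -/
noncomputable def lo (n k M : ℕ) : VT n k M → ℕ
  | Sum.inl i => ((i : ℕ) - 1) * Fintype.card (Idx k M)
  | Sum.inr (j, S) => (j : ℕ) * Fintype.card (Idx k M) + (Fintype.equivFin (Idx k M) S : ℕ)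

/-- Right end of the interval of bags of a vertex. -/
noncomputable def hi (n k M : ℕ) : VT n k M → ℕ
  | Sum.inl i => ((i : ℕ) + 1) * Fintype.card (Idx k M) - 1
  | Sum.inr (j, S) => (j : ℕ) * Fintype.card (Idx k M) + (Fintype.equivFin (Idx k M) S : ℕ)

theorem decomp (n k M : ℕ) (hne : 0 < Fintype.card (Idx k M)) :
    ∃ B : ℕ → Finset (VT n k M),
        (∀ i, (B i).card ≤ 3) ∧
        (∀ v : VT n k M, ∃ i, v ∈ B i) ∧
        (∀ u v : VT n k M, (strip n k M).Adj u v → ∃ i, u ∈ B i ∧ v ∈ B i) ∧
        (∀ (v : VT n k M) (i j k : ℕ), i ≤ j → j ≤ k → v ∈ B i → v ∈ B k → v ∈ B j) := by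
  classical
  set s := Fintype.card (Idx k M) with hs
  refine ⟨fun t => Finset.univ.filter (fun v => lo n k M v ≤ t ∧ t ≤ hi n k M v), ?_, ?_, ?_, ?_⟩
  · intro t
    -- the bag has at most 3 elements
    have hinl : ∀ i : Fin n, lo n k M (Sum.inl i) ≤ t → t ≤ hi n k M (Sum.inl i) →
        (i : ℕ) = t / s ∨ (i : ℕ) = t / s + 1 := by
      intro i h1 h2
      simp only [lo, hi, ← hs] at h1 h2
      have h3 : (i : ℕ) - 1 ≤ t / s := (Nat.le_div_iff_mul_le hne).2 h1
      have h4 : t / s < (i : ℕ) + 1 := by
        rw [Nat.div_lt_iff_lt_mul hne]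
        have : 0 < ((i : ℕ) + 1) * s := Nat.mul_pos (by omega) hne
        omega
      omega
    have hinr : ∀ (j : Fin n) (S : Idx k M), lo n k M (Sum.inr (j, S)) ≤ t →
        t ≤ hi n k M (Sum.inr (j, S)) →
        (j : ℕ) = t / s ∧ (Fintype.equivFin (Idx k M) S : ℕ) = t % s := by
      intro j S h1 h2
      simp only [lo, hi, ← hs] at h1 h2
      have h3 : t = (j : ℕ) * s + (Fintype.equivFin (Idx k M) S : ℕ) := le_antisymm h2 h1
      have h4 : (Fintype.equivFin (Idx k M) S : ℕ) < s := (Fintype.equivFin (Idx k M) S).2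
      constructor
      · rw [h3, mul_comm, Nat.mul_add_div hne, Nat.div_eq_of_lt h4]; omega
      · rw [h3, mul_comm, Nat.mul_add_mod, Nat.mod_eq_of_lt h4]
    -- inject into Fin 3
    let φ : VT n k M → Fin 3 := fun v => match v with
      | Sum.inl i => if (i : ℕ) = t / s then 0 else 1
      | Sum.inr _ => 2
    have : (Finset.univ.filter (fun v => lo n k M v ≤ t ∧ t ≤ hi n k M v)).card ≤
        (Finset.univ : Finset (Fin 3)).card := by
      apply Finset.card_le_card_of_injOn φ
      · intro v _; simp
      · intro v hv v' hv' h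
        simp only [Finset.coe_filter, Finset.mem_univ, true_and, Set.mem_ofPred_eq] at hv hv'
        rcases v with i | ⟨j, S⟩ <;> rcases v' with i' | ⟨j', S'⟩
        · have h1 := hinl i hv.1 hv.2
          have h2 := hinl i' hv'.1 hv'.2
          simp only [φ] at h
          congr 1
          apply Fin.ext
          by_cases e1 : (i : ℕ) = t / s <;> by_cases e2 : (i' : ℕ) = t / s
          · omega
          · simp [e1, e2] at h
          · simp [e1, e2] at h
          · omega
        · simp only [φ] at h
          by_cases e1 : (i : ℕ) = t / s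
          · rw [if_pos e1] at h; exact absurd h (by decide)
          · rw [if_neg e1] at h; exact absurd h (by decide)
        · simp only [φ] at h
          by_cases e1 : (i' : ℕ) = t / s
          · rw [if_pos e1] at h; exact absurd h (by decide)
          · rw [if_neg e1] at h; exact absurd h (by decide)
        · have h1 := hinr j S hv.1 hv.2
          have h2 := hinr j' S' hv'.1 hv'.2
          have h3 : j = j' := Fin.ext (h1.1.trans h2.1.symm)
          have h4 : S = S' := (Fintype.equivFin (Idx k M)).injective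
            (Fin.ext (h1.2.trans h2.2.symm))
          rw [h3, h4]
    simpa using this
  · intro v
    refine ⟨lo n k M v, ?_⟩
    simp only [Finset.mem_filter, Finset.mem_univ, true_and, le_refl]
    rcases v with i | ⟨j, S⟩
    · simp only [lo, hi, ← hs]
      have h1 : ((i : ℕ) - 1) * s ≤ (i : ℕ) * s := Nat.mul_le_mul_right _ (by omega)
      have h2 : ((i : ℕ) + 1) * s = (i : ℕ) * s + s := by ring
      omega
    · simp [lo, hi]
  · have key : ∀ (i j : Fin n) (S : Idx k M), ((i : ℕ) = j ∨ (i : ℕ) = j + 1) →
        lo n k M (Sum.inl i) ≤ lo n k M (Sum.inr (j, S)) ∧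
        lo n k M (Sum.inr (j, S)) ≤ hi n k M (Sum.inl i) := by
      intro i j S h
      simp only [lo, hi, ← hs]
      have h4 : (Fintype.equivFin (Idx k M) S : ℕ) < s := (Fintype.equivFin (Idx k M) S).2
      constructor
      · have : ((i : ℕ) - 1) * s ≤ (j : ℕ) * s := Nat.mul_le_mul_right _ (by omega)
        omega
      · have h5 : ((j : ℕ) + 1) * s ≤ ((i : ℕ) + 1) * s := Nat.mul_le_mul_right _ (by omega)
        have h6 : ((j : ℕ) + 1) * s = (j : ℕ) * s + s := by ring
        omega
    intro u v huv
    rw [strip, SimpleGraph.fromRel_adj] at huv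
    obtain ⟨_, huv⟩ := huv
    rcases u with i | ⟨j, S⟩ <;> rcases v with i' | ⟨j', S'⟩
    · simp [rel] at huv
    · have h : (i : ℕ) = j' ∨ (i : ℕ) = j' + 1 := by simpa [rel] using huv
      refine ⟨lo n k M (Sum.inr (j', S')), ?_, ?_⟩
      · simpa using key i j' S' h
      · simp [lo, hi]
    · have h : (i' : ℕ) = j ∨ (i' : ℕ) = j + 1 := by simpa [rel] using huv
      refine ⟨lo n k M (Sum.inr (j, S)), ?_, ?_⟩
      · simp [lo, hi]
      · simpa using key i' j S h
    · simp [rel] at huv
  · intro v a b d hab hbd h1 h2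
    simp only [Finset.mem_filter, Finset.mem_univ, true_and] at h1 h2 ⊢
    omega

theorem main (c : ℕ) : ∃ (V : Type) (_ : Fintype V) (G : SimpleGraph V),
      (∃ B : ℕ → Finset V,
        (∀ i, (B i).card ≤ 3) ∧
        (∀ v : V, ∃ i, v ∈ B i) ∧
        (∀ u v : V, G.Adj u v → ∃ i, u ∈ B i ∧ v ∈ B i) ∧
        (∀ (v : V) (i j k : ℕ), i ≤ j → j ≤ k → v ∈ B i → v ∈ B k → v ∈ B j)) ∧
      ∃ L : V → Finset ℕ, (∀ v, c ≤ (L v).card) ∧
        ∀ f : V → ℕ, (∀ v, f v ∈ L v) →
          ∃ (u w : V) (p : G.Walk u w), p.IsPath ∧ ∃ k : ℕ, 1 ≤ k ∧ p.length + 1 = 2 * k ∧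
              (∀ i : ℕ, i < k → f (p.getVert i) = f (p.getVert (i + k))) := by
  classical
  obtain ⟨X, hX⟩ := exists_large_harmonic c
  set n := 4 * X + 2 with hn
  set k := c + 1 with hk
  set M := n * k with hM
  have hkM : k ≤ M := by
    rw [hM, hn]; nlinarith
  have hne : 0 < Fintype.card (Idx k M) := by
    rw [Fintype.card_coe, Finset.card_powersetCard, Finset.card_range]
    exact Nat.choose_pos hkM
  have : Nonempty (Idx k M) := Fintype.card_pos_iff.1 hne
  have : NeZero n := ⟨by omega⟩
  refine ⟨VT n k M, inferInstance, strip n k M, decomp n k M hne, ?_⟩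
  -- the lists
  let L : VT n k M → Finset ℕ := fun v => match v with
    | Sum.inl i => Finset.Ico ((i : ℕ) * k) ((i : ℕ) * k + k)
    | Sum.inr (_, S) => S.1
  refine ⟨L, ?_, ?_⟩
  · intro v
    rcases v with i | ⟨j, S⟩
    · simp only [L, Nat.card_Ico]; omega
    · simp only [L]
      have := (Finset.mem_powersetCard.1 S.2).2
      omega
  intro f hf
  by_contra hcon
  have hgood : ∀ (u w : VT n k M) (p : (strip n k M).Walk u w), p.IsPath → ∀ t : ℕ, 1 ≤ t →
      p.length + 1 = 2 * t → ¬ (∀ i : ℕ, i < t → f (p.getVert i) = f (p.getVert (i + t))) := by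
    intro u w p hp t ht hlen hall
    exact hcon ⟨u, w, p, hp, t, ht, hlen, hall⟩
  -- colours of the spine
  let q : ℕ → ℕ := fun i => f (Sum.inl (Fin.ofNat n i))
  have hqmem : ∀ i, i < n → i * k ≤ q i ∧ q i < i * k + k := by
    intro i hi
    have := hf (Sum.inl (Fin.ofNat n i))
    simp only [L, Finset.mem_Ico] at this
    have hv : ((Fin.ofNat n i : Fin n) : ℕ) = i := by
      simp [Fin.ofNat, Nat.mod_eq_of_lt hi]
    rw [hv] at this
    exact this
  have hkpos : 0 < k := by omega
  have hqdiv : ∀ i, i < n → q i / k = i := by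
    intro i hi
    obtain ⟨h1, h2⟩ := hqmem i hi
    apply le_antisymm
    · rw [← Nat.lt_succ_iff, Nat.div_lt_iff_lt_mul hkpos]
      have : (i + 1) * k = i * k + k := by ring
      rw [Nat.succ_eq_add_one, this]; exact h2
    · exact (Nat.le_div_iff_mul_le hkpos).2 h1
  have hqM : ∀ i, i < n → q i < M := by
    intro i hi
    obtain ⟨h1, h2⟩ := hqmem i hi
    have : (i + 1) * k ≤ n * k := Nat.mul_le_mul_right _ (by omega)
    have h3 : (i + 1) * k = i * k + k := by ring
    rw [hM]; omega
  -- forbidden sets
  let F : ℕ → Finset ℕ := fun j => (Finset.range M).filter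
    (fun a => ∀ S : Idx k M, f (Sum.inr (Fin.ofNat n j, S)) ≠ a)
  have hF : ∀ j, j < 4 * X + 2 → (F j).card ≤ c := by
    intro j _
    by_contra hlt
    have hk' : k ≤ (F j).card := by omega
    obtain ⟨S, hS, hSc⟩ := Finset.exists_subset_card_eq hk'
    have hSmem : S ∈ (Finset.range M).powersetCard k :=
      Finset.mem_powersetCard.2 ⟨hS.trans (Finset.filter_subset _ _), hSc⟩
    have h1 := hf (Sum.inr (Fin.ofNat n j, ⟨S, hSmem⟩))
    simp only [L] at h1
    have h2 := hS h1
    simp only [F, Finset.mem_filter] at h2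
    exact h2.2 ⟨S, hSmem⟩ rfl
  have hq : ∀ i j, i < 4 * X + 2 → j < 4 * X + 2 → q i = q j → i = j := by
    intro i j hi hj h
    rw [← hqdiv i hi, ← hqdiv j hj, h]
  have hb : ∀ x i, x ≤ X → i < 2 * X + 1 →
      (∃ r, r ≤ x ∧ q (i + r) ∈ F (i + x + r)) ∨
      (∃ r, r < x ∧ q (i + x + 1 + r) ∈ F (i + r)) := by
    intro x i hx hi
    by_contra hno
    rw [not_or] at hno
    obtain ⟨hno1, hno2⟩ := hno
    -- desired colours
    let des : ℕ → ℕ := fun j => if i + x ≤ j then q (j - x) else q (j + x + 1)
    have hdes : ∀ j, ∃ S : Idx k M, (i ≤ j → j ≤ i + 2 * x →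
        f (Sum.inr (Fin.ofNat n j, S)) = des j) := by
      intro j
      by_cases hj : i ≤ j ∧ j ≤ i + 2 * x
      · obtain ⟨hj1, hj2⟩ := hj
        by_cases hjx : i + x ≤ j
        · have hnot : q (j - x) ∉ F j := by
            intro hmem
            apply hno1
            refine ⟨j - x - i, by omega, ?_⟩
            have e1 : i + (j - x - i) = j - x := by omega
            have e2 : i + x + (j - x - i) = j := by omega
            rw [e1, e2]; exact hmem
          have hlt : q (j - x) < M := hqM _ (by omega)
          simp only [F, Finset.mem_filter, Finset.mem_range, not_and, not_forall, not_not] at hnot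
          obtain ⟨S, hS⟩ := hnot hlt
          refine ⟨S, fun _ _ => ?_⟩
          simp only [des, if_pos hjx]
          exact hS
        · have hnot : q (j + x + 1) ∉ F j := by
            intro hmem
            apply hno2
            refine ⟨j - i, by omega, ?_⟩
            have e1 : i + x + 1 + (j - i) = j + x + 1 := by omega
            have e2 : i + (j - i) = j := by omega
            rw [e1, e2]; exact hmem
          have hlt : q (j + x + 1) < M := hqM _ (by omega)
          simp only [F, Finset.mem_filter, Finset.mem_range, not_and, not_forall, not_not] at hnot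
          obtain ⟨S, hS⟩ := hnot hlt
          refine ⟨S, fun _ _ => ?_⟩
          simp only [des, if_neg hjx]
          exact hS
      · exact ⟨Classical.arbitrary _, fun h1 h2 => absurd ⟨h1, h2⟩ hj⟩
    choose s hs using hdes
    -- the path
    let g : ℕ → VT n k M := fun t => if t % 2 = 0 then Sum.inl (Fin.ofNat n (i + t / 2))
      else Sum.inr (Fin.ofNat n (i + t / 2), s (i + t / 2))
    have hval : ∀ a, a < n → ((Fin.ofNat n a : Fin n) : ℕ) = a := by
      intro a ha
      simp [Fin.ofNat, Nat.mod_eq_of_lt ha]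
    have hadj : ∀ t, t < 4 * x + 1 → (strip n k M).Adj (g t) (g (t + 1)) := by
      intro t ht
      by_cases he : t % 2 = 0
      · have he1 : (t + 1) % 2 ≠ 0 := by omega
        simp only [g, if_pos he, if_neg he1]
        apply strip_adj1
        left
        rw [hval _ (by omega), hval _ (by omega)]
        omega
      · have he1 : (t + 1) % 2 = 0 := by omega
        simp only [g, if_neg he, if_pos he1]
        apply SimpleGraph.Adj.symm
        apply strip_adj1
        right
        rw [hval _ (by omega), hval _ (by omega)]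
        omega
    obtain ⟨p, hp1, hp2⟩ := exists_walk (strip n k M) (4 * x + 1) g hadj
    have hinj : Set.InjOn p.getVert {t | t ≤ p.length} := by
      intro a ha b hb hab
      simp only [Set.mem_ofPred_eq, hp1] at ha hb
      rw [hp2 a ha, hp2 b hb] at hab
      by_cases ea : a % 2 = 0 <;> by_cases eb : b % 2 = 0
      · simp only [g, if_pos ea, if_pos eb, Sum.inl.injEq] at hab
        have := congrArg (fun z : Fin n => (z : ℕ)) hab
        rw [hval _ (by omega), hval _ (by omega)] at this
        omega
      · simp only [g, if_pos ea, if_neg eb] at hab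
        exact absurd hab (by simp)
      · simp only [g, if_neg ea, if_pos eb] at hab
        exact absurd hab (by simp)
      · simp only [g, if_neg ea, if_neg eb, Sum.inr.injEq, Prod.mk.injEq] at hab
        have := congrArg (fun z : Fin n => (z : ℕ)) hab.1
        rw [hval _ (by omega), hval _ (by omega)] at this
        omega
    have hpath : p.IsPath := (SimpleGraph.Walk.IsPath.getVert_injOn_iff p).1 hinj
    refine hgood _ _ p hpath (2 * x + 1) (by omega) (by omega) ?_
    intro t ht
    rw [hp2 t (by omega), hp2 (t + (2 * x + 1)) (by omega)]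
    by_cases he : t % 2 = 0
    · have he1 : (t + (2 * x + 1)) % 2 ≠ 0 := by omega
      simp only [g, if_pos he, if_neg he1]
      rw [hs _ (by omega) (by omega)]
      simp only [des]
      rw [if_pos (by omega)]
      simp only [q]
      congr 3
      omega
    · have he1 : (t + (2 * x + 1)) % 2 = 0 := by omega
      simp only [g, if_neg he, if_pos he1]
      rw [hs _ (by omega) (by omega)]
      simp only [des]
      rw [if_neg (by omega)]
      simp only [q]
      congr 3
      omega
  have := counting c X F q hF hq hb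
  linarith

end Pool.Agent.TH454.PW2
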